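import Pool.Agent.H546.L1.T19

set_option autoImplicit false

/-!
# The sum with `(-96)³`: assertion (a)

The sum `∑_{k<p} (6k)!/((3k)! k!³) (-96)^{-3k}` belongs to the elliptic curve `y² = x³ - 3x + 4z - 2`,
`1 - 2z = 3√114/32`, with complex multiplication by the ring of integers of `ℚ(√-19)`.  Modulo `p²` the sum is the square
of `∑ C(3k,k) C(6k,3k) (z/432)^k` (Clausen).  The curve has the explicit endomorphism `(1+√-19)/2` of degree `5`; over
the Witt vectors of an algebraic closure of `ZMod p` a combination of `1` and this endomorphism of degree `p` lifts the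
Frobenius, and comparing the expansions of the invariant differential at infinity modulo `p²` gives the truncated
series modulo `p²`.
-/

open Finset

namespace Pool.Agent.Results.MP_7425ae_nt.NinetySixCubed

/-- the sum `S(p) = ∑_{k<p} C(6k,3k) (3k)!/(k!)³ (-96)^{-3k}` -/
def S (p : ℕ) : ℚ :=
  ∑ k ∈ range p, (((6 * k).choose (3 * k) : ℚ) * (((3 * k).factorial : ℚ) / (k.factorial : ℚ) ^ 3)) / (-96) ^ (3 * k)

/-- congruence modulo `p²` of rational numbers: `(a - b) / p²` has denominator prime to `p` -/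
def Cong (p : ℕ) (a b : ℚ) : Prop := p.Coprime ((a - b) / (p : ℚ) ^ 2).den

local instance fact19a : Fact (Nat.Prime 19) := ⟨by norm_num⟩

theorem small (p : ℕ) (w E : ℕ) (M : ℤ)
    (e : (M * (w : ℤ) : ZMod (p ^ 2)) = 1)
    (hE : (∑ k ∈ range p, k.centralBinom * Pool.Agent.H546.L1.u6 k * w ^ k) % (p ^ 2) = E % (p ^ 2))
    (wi : ZMod (p ^ 2)) (hwi : ((M : ℤ) : ZMod (p ^ 2)) * wi = 1) :
    ∑ k ∈ range p, (k.centralBinom : ZMod (p ^ 2)) * ((Pool.Agent.H546.L1.u6 k : ℕ) : ZMod (p ^ 2)) * wi ^ k =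
      (((E : ℕ) : ℤ) : ZMod (p ^ 2)) := by
  have h : wi = ((w : ℕ) : ZMod (p ^ 2)) := by
    push_cast at e
    linear_combination (w : ZMod (p ^ 2)) * hwi - wi * e
  subst h
  have h0 : ∀ k ∈ range p, ((k.centralBinom : ZMod (p ^ 2)) * ((Pool.Agent.H546.L1.u6 k : ℕ) : ZMod (p ^ 2)) *
      ((w : ℕ) : ZMod (p ^ 2)) ^ k) =
    (((k.centralBinom * Pool.Agent.H546.L1.u6 k * w ^ k : ℕ)) : ZMod (p ^ 2)) := by intro k _; push_cast; rfl
  rw [sum_congr rfl h0, ← Nat.cast_sum]
  have h2 := (ZMod.natCast_eq_natCast_iff' (∑ k ∈ range p, k.centralBinom * Pool.Agent.H546.L1.u6 k * w ^ k) E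
    (p ^ 2)).mpr hE
  rw [h2]; push_cast; rfl

theorem five (wi : ZMod (5 ^ 2)) (hwi : ((-884736 : ℤ) : ZMod (5 ^ 2)) * wi = 1) :
    ∑ k ∈ range 5, (k.centralBinom : ZMod (5 ^ 2)) * ((Pool.Agent.H546.L1.u6 k : ℕ) : ZMod (5 ^ 2)) * wi ^ k =
      (((16 : ℕ) : ℤ) : ZMod (5 ^ 2)) := by
  refine small 5 9 16 (-884736) (by decide) ?_ wi hwi
  simp only [sum_range_succ, sum_range_zero, Pool.Agent.H546.L1.u6, Nat.centralBinom]
  norm_num [Nat.choose]

theorem seven (wi : ZMod (7 ^ 2)) (hwi : ((-884736 : ℤ) : ZMod (7 ^ 2)) * wi = 1) :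
    ∑ k ∈ range 7, (k.centralBinom : ZMod (7 ^ 2)) * ((Pool.Agent.H546.L1.u6 k : ℕ) : ZMod (7 ^ 2)) * wi ^ k =
      (((44 : ℕ) : ℤ) : ZMod (7 ^ 2)) := by
  refine small 7 43 44 (-884736) (by decide) ?_ wi hwi
  simp only [sum_range_succ, sum_range_zero, Pool.Agent.H546.L1.u6, Nat.centralBinom]
  norm_num [Nat.choose]

theorem leg5 : @legendreSym 5 ⟨by norm_num⟩ (-6) = 1 := by decide +kernel
theorem leg7 : @legendreSym 7 ⟨by norm_num⟩ (-6) = 1 := by decide +kernel
theorem leg19_5 : legendreSym 19 ((5 : ℕ) : ℤ) = 1 := by decide +kernel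
theorem leg19_7 : legendreSym 19 ((7 : ℕ) : ℤ) = 1 := by decide +kernel
theorem leg19_19 : legendreSym 19 ((19 : ℕ) : ℤ) = 0 := by decide +kernel

theorem result (p : ℕ) [Fact p.Prime] (h3 : 3 < p) :
    (jacobiSym p 19 = 1 → ∀ x y : ℤ, 4 * (p : ℤ) = x ^ 2 + 19 * y ^ 2 →
      Cong p (S p) ((legendreSym p (-6) : ℚ) * (x ^ 2 - 2 * p))) ∧
    (jacobiSym p 19 = -1 → Cong p (S p) 0) := by
  have hp : p.Prime := Fact.out
  have hp2 : p ≠ 2 := by omega
  have hM : ¬ (p : ℤ) ∣ -884736 := by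
    refine Pool.Agent.H546.ndvd_fac [(2, 15), (3, 3)] ?_ (by norm_num)
    simp
    exact ⟨⟨by norm_num, hp2⟩, ⟨by norm_num, by omega⟩⟩
  obtain ⟨wi, hwi⟩ := Pool.Agent.H546.inv_exists hM
  have hj : jacobiSym p 19 = legendreSym 19 p := (jacobiSym.legendreSym.to_jacobiSym 19 p).symm
  rw [hj]
  have tr : ∀ E : ℤ, ∑ k ∈ range p, (k.centralBinom : ZMod (p ^ 2)) *
      ((Pool.Agent.H546.L1.u6 k : ℕ) : ZMod (p ^ 2)) * wi ^ k = ((E : ℤ) : ZMod (p ^ 2)) →
      Cong p (S p) (E : ℚ) := by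
    intro E hE
    have h := Pool.Agent.H546.L1.tr6 hM hwi E hE
    have e : S p = ∑ k ∈ range p, (((6 * k).factorial : ℚ) / (((3 * k).factorial : ℚ) * (k.factorial : ℚ) ^ 3)) /
        (((-884736 : ℤ)) : ℚ) ^ k := by
      unfold S
      refine sum_congr rfl fun k _ => ?_
      have h1 : (6 * k).choose (3 * k) * (3 * k).factorial * (3 * k).factorial = (6 * k).factorial := by
        have := Nat.choose_mul_factorial_mul_factorial (show 3 * k ≤ 6 * k by omega)
        rwa [show 6 * k - 3 * k = 3 * k by omega] at this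
      have h1' : ((6 * k).choose (3 * k) : ℚ) * (3 * k).factorial * (3 * k).factorial = (6 * k).factorial := by
        exact_mod_cast h1
      have hk : (k.factorial : ℚ) ≠ 0 := by exact_mod_cast k.factorial_ne_zero
      have h3k : ((3 * k).factorial : ℚ) ≠ 0 := by exact_mod_cast (3 * k).factorial_ne_zero
      rw [← h1', pow_mul]
      have e1 : ((-96 : ℚ)) ^ 3 = (((-884736 : ℤ)) : ℚ) := by norm_num
      rw [e1]
      congr 1
      field_simp
    unfold Cong
    rw [e]
    exact h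
  by_cases h5 : p = 5
  · subst h5
    rw [leg19_5]
    refine ⟨fun _ x y hxy => ?_, fun h => absurd h (by norm_num)⟩
    have hs := five wi hwi
    have hy : y ^ 2 = 1 := by
      have h1 : y ^ 2 ≤ 1 := by
        have : 19 * y ^ 2 ≤ 20 := by push_cast at hxy; nlinarith [sq_nonneg x]
        omega
      have h2 : y ^ 2 ≠ 0 := by
        intro h0
        rw [h0] at hxy
        push_cast at hxy
        have hb : x < 5 := by nlinarith
        have hb2 : -5 < x := by nlinarith
        interval_cases x <;> omega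
      have h3 := sq_nonneg y
      omega
    have hx : x ^ 2 = 1 := by rw [hy] at hxy; push_cast at hxy; omega
    have hE : (((16 : ℕ) : ℤ) : ZMod (5 ^ 2)) = ((-9 : ℤ) : ZMod (5 ^ 2)) := by decide
    have := tr (-9) (by rw [hs, hE])
    have hxq : (x : ℚ) ^ 2 = 1 := by exact_mod_cast hx
    have hleg : legendreSym 5 (-6) = 1 := leg5
    rw [hxq, hleg]
    push_cast at this ⊢
    norm_num at this ⊢
    exact this
  by_cases h7 : p = 7
  · subst h7
    rw [leg19_7]
    refine ⟨fun _ x y hxy => ?_, fun h => absurd h (by norm_num)⟩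
    have hs := seven wi hwi
    have hy : y ^ 2 = 1 := by
      have h1 : y ^ 2 ≤ 1 := by
        have : 19 * y ^ 2 ≤ 28 := by push_cast at hxy; nlinarith [sq_nonneg x]
        omega
      have h2 : y ^ 2 ≠ 0 := by
        intro h0
        rw [h0] at hxy
        push_cast at hxy
        have hb : x < 6 := by nlinarith
        have hb2 : -6 < x := by nlinarith
        interval_cases x <;> omega
      have h3 := sq_nonneg y
      omega
    have hx : x ^ 2 = 9 := by rw [hy] at hxy; push_cast at hxy; omega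
    have hE : (((44 : ℕ) : ℤ) : ZMod (7 ^ 2)) = ((-5 : ℤ) : ZMod (7 ^ 2)) := by decide
    have := tr (-5) (by rw [hs, hE])
    have hxq : (x : ℚ) ^ 2 = 9 := by exact_mod_cast hx
    have hleg : legendreSym 7 (-6) = 1 := leg7
    rw [hxq, hleg]
    push_cast at this ⊢
    norm_num at this ⊢
    exact this
  by_cases h19 : p = 19
  · subst h19
    rw [leg19_19]
    exact ⟨fun h => absurd h (by norm_num), fun h => absurd h (by norm_num)⟩
  have h78 : 7 < p := by
    have : p ≠ 4 := by rintro rfl; exact absurd hp (by norm_num)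
    have : p ≠ 6 := by rintro rfl; exact absurd hp (by norm_num)
    omega
  obtain ⟨m1, m2⟩ := Pool.Agent.H546.L1.t19_main p h78 h19 hwi
  refine ⟨fun hl x y hxy => ?_, fun hl => ?_⟩
  · have := tr _ (m1 x y hl hxy)
    push_cast at this
    exact this
  · have := tr 0 (by rw [m2 hl]; simp)
    push_cast at this
    exact this

end Pool.Agent.Results.MP_7425ae_nt.NinetySixCubed
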